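import Mathlib

/-!
# MP_5e3dfa_co: shattered systems of disjoint `r`-sets in maximal intersecting families

Upper and lower bounds for `k_r(n)` that agree up to a factor `2` for all even `n ≥ 4` and all
`r ≥ 3`, and that coincide for `n ≤ 6 (r - 1)`.
-/

namespace Pool.Agent.Results.MP_5e3dfa_co.Magnitude

open Finset

/-- `F` is a maximal intersecting family of `n/2`-element subsets of an `n`-element set. -/
def MaxInt {n : ℕ} (F : Finset (Finset (Fin n))) : Prop :=
  (∀ A ∈ F, A.card = n / 2) ∧ (∀ A ∈ F, ∀ B ∈ F, A ∩ B ≠ ∅) ∧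
    ∀ S : Finset (Fin n), S.card = n / 2 → (∀ A ∈ F, S ∩ A ≠ ∅) → S ∈ F

/-- `M` is a system of pairwise disjoint `r`-element sets. -/
def System {n : ℕ} (r : ℕ) (M : Finset (Finset (Fin n))) : Prop :=
  (∀ A ∈ M, A.card = r) ∧ ∀ A ∈ M, ∀ B ∈ M, A ≠ B → Disjoint A B

/-- `F` shatters the system `M`: for every choice of one element from each member of `M` some
member of `F` meets the union of `M` exactly in the chosen elements. -/
def Shatters {n : ℕ} (F M : Finset (Finset (Fin n))) : Prop :=
  ∀ c : Finset (Fin n) → Fin n, (∀ A ∈ M, c A ∈ A) →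
    ∃ B ∈ F, B ∩ M.biUnion id = M.image c

/-- `k_r(n)`: the largest `k` such that every maximal intersecting family of `n/2`-subsets
shatters some system of `k` pairwise disjoint `r`-sets. -/
noncomputable def kr (r n : ℕ) : ℕ :=
  sSup {k | ∀ F : Finset (Finset (Fin n)), MaxInt F →
    ∃ M : Finset (Finset (Fin n)), System r M ∧ M.card = k ∧ Shatters F M}

section basics

variable {n : ℕ}

lemma card_compl_fin (S : Finset (Fin n)) : Sᶜ.card + S.card = n := by
  have := card_add_card_compl S
  rw [Fintype.card_fin] at this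
  omega

/-- In a maximal intersecting family one of two complementary half-size sets is a member. -/
lemma mem_or_compl (hn : Even n) {F : Finset (Finset (Fin n))} (hF : MaxInt F)
    {A : Finset (Fin n)} (hA : A.card = n / 2) : A ∈ F ∨ Aᶜ ∈ F := by
  obtain ⟨h1, h2, h3⟩ := hF
  by_contra hcon
  push Not at hcon
  obtain ⟨hA1, hA2⟩ := hcon
  obtain ⟨t, ht⟩ := hn
  have hc := card_compl_fin A
  have e1 : ∃ B ∈ F, A ∩ B = ∅ := by
    by_contra h
    push Not at h
    exact hA1 (h3 A hA fun B hB => (h B hB).ne_empty)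
  obtain ⟨B, hB, hAB⟩ := e1
  have hsub : B ⊆ Aᶜ := by
    intro z hz
    rw [mem_compl]
    intro hzA
    have : z ∈ A ∩ B := mem_inter.2 ⟨hzA, hz⟩
    rw [hAB] at this
    exact notMem_empty z this
  have : B = Aᶜ := eq_of_subset_of_card_le hsub (by rw [h1 B hB]; omega)
  rw [this] at hB
  exact hA2 hB

/-- Partition of a set of size `j r` into `r`-sets. -/
lemma exists_partition (r : ℕ) (hr : 1 ≤ r) : ∀ (j : ℕ) (W : Finset (Fin n)), W.card = j * r →
    ∃ M : Finset (Finset (Fin n)), System r M ∧ M.card = j ∧ M.biUnion id = W := by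
  classical
  intro j
  induction j with
  | zero =>
    intro W hW
    rw [zero_mul, card_eq_zero] at hW
    subst hW
    exact ⟨∅, ⟨by simp, by simp⟩, rfl, by simp⟩
  | succ j ih =>
    intro W hW
    obtain ⟨A, hA, hAc⟩ := exists_subset_card_eq (show r ≤ W.card by rw [hW]; nlinarith)
    obtain ⟨M, hM, hMc, hMu⟩ := ih (W \ A) (by
      rw [card_sdiff_of_subset hA, hW, hAc, Nat.succ_mul]; omega)
    have hAM : ∀ B ∈ M, Disjoint A B := by
      intro B hB
      have : B ⊆ W \ A := by
        rw [← hMu]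
        exact subset_biUnion_of_mem id hB
      rw [disjoint_left]
      intro z hz hz'
      exact (mem_sdiff.1 (this hz')).2 hz
    have hAnot : A ∉ M := by
      intro h
      have := hAM A h
      rw [disjoint_self_iff_empty] at this
      rw [this, card_empty] at hAc
      omega
    refine ⟨insert A M, ⟨?_, ?_⟩, ?_, ?_⟩
    · intro B hB
      rcases mem_insert.1 hB with rfl | hB
      · exact hAc
      · exact hM.1 B hB
    · intro B hB C hC hne
      rcases mem_insert.1 hB with rfl | hB <;> rcases mem_insert.1 hC with rfl | hC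
      · exact absurd rfl hne
      · exact hAM C hC
      · exact (hAM B (by assumption)).symm
      · exact hM.2 B (by assumption) C (by assumption) hne
    · rw [card_insert_of_notMem hAnot, hMc]
    · rw [biUnion_insert, hMu]
      exact union_sdiff_of_subset hA

lemma card_choice {r : ℕ} {M : Finset (Finset (Fin n))} (hM : System r M)
    {c : Finset (Fin n) → Fin n} (hc : ∀ A ∈ M, c A ∈ A) : (M.image c).card = M.card := by
  apply card_image_of_injOn
  intro A hA B hB h
  by_contra hne
  have := hM.2 A hA B hB hne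
  rw [disjoint_left] at this
  exact this (hc A hA) (by
    have h' : c A = c B := h
    rw [h']; exact hc B hB)

lemma card_union_system {r : ℕ} {M : Finset (Finset (Fin n))} (hM : System r M) :
    (M.biUnion id).card = M.card * r := by
  have h := card_biUnion (s := M) (t := id) (fun A hA B hB hne => hM.2 A hA B hB hne)
  rw [h]
  exact sum_const_nat (fun A hA => hM.1 A hA)

lemma image_subset {M : Finset (Finset (Fin n))} {c : Finset (Fin n) → Fin n}
    (hc : ∀ A ∈ M, c A ∈ A) : M.image c ⊆ M.biUnion id := by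
  intro z hz
  obtain ⟨A, hA, rfl⟩ := mem_image.1 hz
  exact mem_biUnion.2 ⟨A, hA, hc A hA⟩

/-- `T` is blocked on `U`: no member of `F` meets `U` exactly in `T`. -/
def Blocked (F : Finset (Finset (Fin n))) (U T : Finset (Fin n)) : Prop :=
  T ⊆ U ∧ ∀ B ∈ F, B ∩ U ≠ T

lemma blocked_of_not_shatters {F M : Finset (Finset (Fin n))} (h : ¬ Shatters F M) :
    ∃ c : Finset (Fin n) → Fin n, (∀ A ∈ M, c A ∈ A) ∧ Blocked F (M.biUnion id) (M.image c) := by
  unfold Shatters at h
  push Not at h
  obtain ⟨c, hc, h⟩ := h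
  exact ⟨c, hc, image_subset hc, h⟩

/-- Two blocked sets that are compatible give a contradiction. -/
lemma conflict (hn : Even n) {F : Finset (Finset (Fin n))} (hF : MaxInt F)
    {U T U' T' : Finset (Fin n)} (h : Blocked F U T) (h' : Blocked F U' T')
    (h1 : ∀ x ∈ U, x ∈ U' → (x ∈ T ↔ x ∉ T'))
    (h2 : (T ∪ (U' \ T')).card ≤ n / 2) (h3 : ((U \ T) ∪ T').card ≤ n / 2) : False := by
  classical
  obtain ⟨hT, hb⟩ := h
  obtain ⟨hT', hb'⟩ := h'
  have hsub : T ∪ (U' \ T') ⊆ ((U \ T) ∪ T')ᶜ := by
    intro x hx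
    rw [mem_compl, mem_union, mem_sdiff]
    rcases mem_union.1 hx with hx | hx
    · rintro (h | h)
      · exact h.2 hx
      · exact ((h1 x (hT hx) (hT' h)).1 hx) h
    · obtain ⟨hx1, hx2⟩ := mem_sdiff.1 hx
      rintro (h | h)
      · exact h.2 ((h1 x h.1 hx1).2 hx2)
      · exact hx2 h
  obtain ⟨t, ht⟩ := hn
  have hc := card_compl_fin ((U \ T) ∪ T')
  obtain ⟨A, hA1, hA2, hAc⟩ := exists_subsuperset_card_eq hsub h2 (by omega)
  have hAc' := card_compl_fin A
  have hAU : A ∩ U = T := by
    ext x
    rw [mem_inter]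
    constructor
    · rintro ⟨hxA, hxU⟩
      by_contra hxT
      have := hA2 hxA
      rw [mem_compl] at this
      exact this (mem_union_left _ (mem_sdiff.2 ⟨hxU, hxT⟩))
    · intro hx
      exact ⟨hA1 (mem_union_left _ hx), hT hx⟩
  have hAU' : Aᶜ ∩ U' = T' := by
    ext x
    rw [mem_inter, mem_compl]
    constructor
    · rintro ⟨hxA, hxU⟩
      by_contra hxT
      exact hxA (hA1 (mem_union_right _ (mem_sdiff.2 ⟨hxU, hxT⟩)))
    · intro hx
      refine ⟨fun hxA => ?_, hT' hx⟩
      have := hA2 hxA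
      rw [mem_compl] at this
      exact this (mem_union_right _ hx)
  rcases mem_or_compl ⟨t, ht⟩ hF hAc with hm | hm
  · exact hb A hm hAU
  · exact hb' _ hm hAU'

/-- First lower bound: `k r ≤ n/2`. -/
lemma lower_one (hn : Even n) {r k : ℕ} (hr : 1 ≤ r) (hk : k * r ≤ n / 2)
    {F : Finset (Finset (Fin n))} (hF : MaxInt F) :
    ∃ M : Finset (Finset (Fin n)), System r M ∧ M.card = k ∧ Shatters F M := by
  classical
  by_contra hcon
  push Not at hcon
  obtain ⟨t, ht⟩ := hn
  obtain ⟨U, -, hU⟩ := exists_subset_card_eq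
    (show k * r ≤ (univ : Finset (Fin n)).card by rw [card_univ, Fintype.card_fin]; omega)
  obtain ⟨U', hU's, hU'⟩ := exists_subset_card_eq
    (show k * r ≤ Uᶜ.card by have := card_compl_fin U; omega)
  obtain ⟨M, hM, hMc, hMu⟩ := exists_partition r hr k U hU
  obtain ⟨M', hM', hMc', hMu'⟩ := exists_partition r hr k U' hU'
  obtain ⟨c, hc, hb⟩ := blocked_of_not_shatters (hcon M hM hMc)
  obtain ⟨c', hc', hb'⟩ := blocked_of_not_shatters (hcon M' hM' hMc')
  have k1 := card_choice hM hc
  have k2 := card_choice hM' hc'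
  rw [hMu] at hb
  rw [hMu'] at hb'
  have kr1 : k ≤ k * r := Nat.le_mul_of_pos_right _ hr
  refine conflict ⟨t, ht⟩ hF hb hb' ?_ ?_ ?_
  · intro x hx hx'
    exact absurd hx (mem_compl.1 (hU's hx'))
  · refine (card_union_le _ _).trans ?_
    rw [card_sdiff_of_subset hb'.1]
    omega
  · refine (card_union_le _ _).trans ?_
    rw [card_sdiff_of_subset hb.1]
    omega

/-- Second lower bound: `k r = n/2 + 1`, `k ≥ 2`, `r ≥ 3`. -/
lemma lower_two (hn : Even n) {r k : ℕ} (hr : 3 ≤ r) (hk2 : 2 ≤ k) (hk : k * r = n / 2 + 1)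
    {F : Finset (Finset (Fin n))} (hF : MaxInt F) :
    ∃ M : Finset (Finset (Fin n)), System r M ∧ M.card = k ∧ Shatters F M := by
  classical
  by_contra hcon
  push Not at hcon
  obtain ⟨t, ht⟩ := hn
  have hh : n / 2 = t := by omega
  rw [hh] at hk
  have hkr : 6 ≤ k * r := by nlinarith
  have htpos : 5 ≤ t := by omega
  -- `b` is active with respect to `O` and `a`
  set Act : Finset (Fin n) → Fin n → Fin n → Prop := fun O a b =>
    ∃ T : Finset (Fin n), Blocked F Oᶜ T ∧ T.card = k ∧ b ∈ T ∧ a ∉ T with hAct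
  set Om : Finset (Finset (Fin n) × Fin n × Fin n) :=
    univ.filter (fun p => p.1.card = t - 1 ∧ p.2.1 ∉ p.1 ∧ p.2.2 ∉ p.1 ∧ p.2.1 ≠ p.2.2) with hOm
  set AA := Om.filter (fun p => Act p.1 p.2.1 p.2.2) with hAA
  -- the involution
  set φ : Finset (Fin n) × Fin n × Fin n → Finset (Fin n) × Fin n × Fin n :=
    fun p => ((insert p.2.1 (insert p.2.2 p.1))ᶜ, p.2.2, p.2.1) with hφ
  have hcardR : ∀ p ∈ Om, (insert p.2.1 (insert p.2.2 p.1)).card = t + 1 := by
    intro p hp
    obtain ⟨-, p1, p2, p3, p4⟩ := mem_filter.1 hp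
    rw [card_insert_of_notMem (by rw [mem_insert]; push Not; exact ⟨p4, p2⟩),
      card_insert_of_notMem p3, p1]
    omega
  have hφm : ∀ p ∈ Om, φ p ∈ Om := by
    intro p hp
    have hc := hcardR p hp
    have hcc := card_compl_fin (insert p.2.1 (insert p.2.2 p.1))
    obtain ⟨-, p1, p2, p3, p4⟩ := mem_filter.1 hp
    rw [hOm, mem_filter]
    refine ⟨mem_univ _, ?_, ?_, ?_, p4.symm⟩
    · show (insert p.2.1 (insert p.2.2 p.1))ᶜ.card = t - 1
      omega
    · show p.2.2 ∉ (insert p.2.1 (insert p.2.2 p.1))ᶜ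
      rw [mem_compl]; push Not; simp
    · show p.2.1 ∉ (insert p.2.1 (insert p.2.2 p.1))ᶜ
      rw [mem_compl]; push Not; simp
  have hφφ : ∀ p ∈ Om, φ (φ p) = p := by
    intro p hp
    obtain ⟨-, p1, p2, p3, p4⟩ := mem_filter.1 hp
    refine Prod.ext ?_ rfl
    show (insert p.2.2 (insert p.2.1 (insert p.2.1 (insert p.2.2 p.1))ᶜ))ᶜ = p.1
    ext z
    simp only [mem_compl, mem_insert]
    constructor
    · intro h
      push Not at h
      obtain ⟨h1, h2, h3⟩ := h
      rcases h3 with h3 | h3 | h3
      · exact absurd h3 h2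
      · exact absurd h3 h1
      · exact h3
    · intro h
      push Not
      refine ⟨?_, ?_, Or.inr (Or.inr h)⟩
      · rintro rfl; exact p3 h
      · rintro rfl; exact p2 h
  -- no conflict
  have hdis : ∀ p ∈ AA, φ p ∉ AA := by
    intro p hp hp'
    obtain ⟨hpO, T, hT, hTc, hbT, haT⟩ := mem_filter.1 hp
    obtain ⟨-, T', hT', hTc', haT', hbT'⟩ := mem_filter.1 hp'
    obtain ⟨-, p1, p2, p3, p4⟩ := mem_filter.1 hpO
    set O := p.1 with hO
    set a := p.2.1 with ha
    set b := p.2.2 with hb
    have hT'' : Blocked F (insert a (insert b O)) T' := by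
      have : ((insert a (insert b O))ᶜ)ᶜ = insert a (insert b O) := compl_compl _
      rw [← this]
      exact hT'
    have haT'' : a ∈ T' := haT'
    have hbT'' : b ∉ T' := hbT'
    have hOc := card_compl_fin O
    have hRc := hcardR p hpO
    refine conflict ⟨t, ht⟩ hF hT hT'' ?_ ?_ ?_
    · intro x hx hx'
      rw [mem_compl] at hx
      rw [mem_insert, mem_insert] at hx'
      rcases hx' with rfl | rfl | hx'
      · exact ⟨fun h => absurd h haT, fun h => absurd haT'' h⟩
      · exact ⟨fun _ => hbT'', fun _ => hbT⟩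
      · exact absurd hx' hx
    · -- size of `T ∪ (U' \ T')`
      have hsub : T ∪ ((insert a (insert b O)) \ T') ⊆ (T.erase b) ∪ ((insert a (insert b O)) \ T') := by
        intro x hx
        rcases mem_union.1 hx with hx | hx
        · by_cases hxb : x = b
          · rw [hxb]
            exact mem_union_right _ (mem_sdiff.2 ⟨by simp, hbT''⟩)
          · exact mem_union_left _ (mem_erase.2 ⟨hxb, hx⟩)
        · exact mem_union_right _ hx
      refine (card_le_card hsub).trans ((card_union_le _ _).trans ?_)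
      rw [card_erase_of_mem hbT, card_sdiff_of_subset hT''.1, hTc, hTc', hRc, hh]
      have : k ≤ t + 1 := by rw [← hk]; exact Nat.le_mul_of_pos_right _ (by omega)
      omega
    · have hsub : (Oᶜ \ T) ∪ T' ⊆ (Oᶜ \ T) ∪ (T'.erase a) := by
        intro x hx
        rcases mem_union.1 hx with hx | hx
        · exact mem_union_left _ hx
        · by_cases hxa : x = a
          · rw [hxa]
            exact mem_union_left _ (mem_sdiff.2 ⟨mem_compl.2 p2, haT⟩)
          · exact mem_union_right _ (mem_erase.2 ⟨hxa, hx⟩)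
      refine (card_le_card hsub).trans ((card_union_le _ _).trans ?_)
      rw [card_erase_of_mem haT'', card_sdiff_of_subset hT.1, hTc, hTc', hh]
      have : k ≤ t + 1 := by rw [← hk]; exact Nat.le_mul_of_pos_right _ (by omega)
      omega
  have hupper : 2 * AA.card ≤ Om.card := by
    have h1 : (AA.image φ).card = AA.card := by
      apply card_image_of_injOn
      intro p hp q hq hpq
      have hp' := (mem_filter.1 hp).1
      have hq' := (mem_filter.1 hq).1
      rw [← hφφ p hp', ← hφφ q hq']
      exact congrArg φ hpq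
    have h2 : Disjoint AA (AA.image φ) := by
      rw [disjoint_left]
      intro p hp hp'
      obtain ⟨q, hq, rfl⟩ := mem_image.1 hp'
      exact hdis q hq hp
    have h3 : AA ∪ AA.image φ ⊆ Om := by
      apply union_subset (filter_subset _ _)
      intro p hp
      obtain ⟨q, hq, rfl⟩ := mem_image.1 hp
      exact hφm q (mem_filter.1 hq).1
    have h4 := card_le_card h3
    rw [card_union_of_disjoint h2, h1] at h4
    omega
  -- fibrewise lower bound
  have hmapO : ∀ p ∈ Om, p.1 ∈ powersetCard (t - 1) (univ : Finset (Fin n)) := by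
    intro p hp
    rw [mem_powersetCard_univ]
    exact (mem_filter.1 hp).2.1
  have e1 : Om.card = ∑ O ∈ powersetCard (t - 1) (univ : Finset (Fin n)),
      (Om.filter (fun p => p.1 = O)).card :=
    card_eq_sum_card_fiberwise (fun p hp => hmapO p hp)
  have e2 : AA.card = ∑ O ∈ powersetCard (t - 1) (univ : Finset (Fin n)),
      (AA.filter (fun p => p.1 = O)).card :=
    card_eq_sum_card_fiberwise (fun p hp => hmapO p (mem_filter.1 hp).1)
  have hfib : ∀ O ∈ powersetCard (t - 1) (univ : Finset (Fin n)),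
      (Om.filter (fun p => p.1 = O)).card < 2 * (AA.filter (fun p => p.1 = O)).card := by
    intro O hO
    rw [mem_powersetCard_univ] at hO
    have hOc := card_compl_fin O
    have hU : Oᶜ.card = k * r := by omega
    -- all pairs
    have f1 : (Om.filter (fun p => p.1 = O)).card ≤ (k * r) * (k * r - 1) := by
      have : (Om.filter (fun p => p.1 = O)).card ≤ (Oᶜ.offDiag).card := by
        apply card_le_card_of_injOn (fun p => p.2)
        · intro p hp
          obtain ⟨hp1, hp2⟩ := mem_filter.1 (mem_coe.1 hp)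
          obtain ⟨-, -, p2, p3, p4⟩ := mem_filter.1 hp1
          rw [hp2] at p2 p3
          rw [mem_coe, mem_offDiag, mem_compl, mem_compl]
          exact ⟨p2, p3, p4⟩
        · intro p hp q hq hpq
          have h1 := (mem_filter.1 (mem_coe.1 hp)).2
          have h2 := (mem_filter.1 (mem_coe.1 hq)).2
          exact Prod.ext (h1.trans h2.symm) hpq
      rw [offDiag_card, hU] at this
      refine this.trans (le_of_eq ?_)
      rw [Nat.mul_sub, mul_one]
    -- isolated vertices
    set J := Oᶜ.filter (fun b => ¬ ∃ T : Finset (Fin n), Blocked F Oᶜ T ∧ T.card = k ∧ b ∈ T)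
      with hJ
    have hJc : J.card ≤ r - 1 := by
      by_contra hlt
      push Not at hlt
      obtain ⟨A, hA, hAc⟩ := exists_subset_card_eq (show r ≤ J.card by omega)
      have hAO : A ⊆ Oᶜ := hA.trans (filter_subset _ _)
      obtain ⟨M, hM, hMc, hMu⟩ := exists_partition (n := n) r (by omega) (k - 1) (Oᶜ \ A) (by
        rw [card_sdiff_of_subset hAO, hU, hAc, Nat.sub_mul, one_mul])
      have hAM : ∀ B ∈ M, Disjoint A B := by
        intro B hB
        have : B ⊆ Oᶜ \ A := by
          rw [← hMu]
          exact subset_biUnion_of_mem id hB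
        rw [disjoint_left]
        intro z hz hz'
        exact (mem_sdiff.1 (this hz')).2 hz
      have hAnot : A ∉ M := by
        intro h
        have := hAM A h
        rw [disjoint_self_iff_empty] at this
        rw [this, card_empty] at hAc
        omega
      have hS : System r (insert A M) := by
        refine ⟨?_, ?_⟩
        · intro B hB
          rcases mem_insert.1 hB with rfl | hB
          · exact hAc
          · exact hM.1 B hB
        · intro B hB C hC hne
          rcases mem_insert.1 hB with rfl | hB <;> rcases mem_insert.1 hC with rfl | hC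
          · exact absurd rfl hne
          · exact hAM C hC
          · exact (hAM B (by assumption)).symm
          · exact hM.2 B (by assumption) C (by assumption) hne
      have hSc : (insert A M).card = k := by
        rw [card_insert_of_notMem hAnot, hMc]; omega
      have hSu : (insert A M).biUnion id = Oᶜ := by
        rw [biUnion_insert, hMu]
        exact union_sdiff_of_subset hAO
      obtain ⟨c, hc, hbl⟩ := blocked_of_not_shatters (hcon _ hS hSc)
      have hTc := card_choice hS hc
      rw [hSc] at hTc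
      rw [hSu] at hbl
      have hcA : c A ∈ A := hc A (mem_insert_self _ _)
      have := (mem_filter.1 (hA hcA)).2
      exact this ⟨_, hbl, hTc, mem_image.2 ⟨A, mem_insert_self _ _, rfl⟩⟩
    -- active pairs
    set N := Oᶜ.filter (fun b => ∃ T : Finset (Fin n), Blocked F Oᶜ T ∧ T.card = k ∧ b ∈ T)
      with hN
    have hNJ : N.card + J.card = k * r := by
      rw [← hU]
      exact card_filter_add_card_filter_not _
    have f2 : N.card * (k * r - k) ≤ (AA.filter (fun p => p.1 = O)).card := by
      have hch : ∀ b ∈ N, ∃ T : Finset (Fin n), Blocked F Oᶜ T ∧ T.card = k ∧ b ∈ T :=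
        fun b hb => (mem_filter.1 hb).2
      choose! TT hTT using hch
      have hsub : N.biUnion (fun b => (Oᶜ \ TT b).image (fun a => (O, a, b)))
          ⊆ AA.filter (fun p => p.1 = O) := by
        intro p hp
        obtain ⟨b, hb, hp⟩ := mem_biUnion.1 hp
        obtain ⟨a, ha, rfl⟩ := mem_image.1 hp
        obtain ⟨t1, t2, t3⟩ := hTT b hb
        obtain ⟨ha1, ha2⟩ := mem_sdiff.1 ha
        rw [mem_filter, hAA, mem_filter, hOm, mem_filter]
        refine ⟨⟨⟨mem_univ _, hO, mem_compl.1 ha1, mem_compl.1 (mem_filter.1 hb).1, ?_⟩,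
          TT b, t1, t2, t3, ha2⟩, rfl⟩
        rintro h
        apply ha2
        have h' : a = b := h
        rw [h']; exact t3
      refine le_trans ?_ (card_le_card hsub)
      rw [card_biUnion]
      · have h1 : ∀ b ∈ N, k * r - k ≤ ((Oᶜ \ TT b).image (fun a => (O, a, b))).card := by
          intro b hb
          obtain ⟨t1, t2, t3⟩ := hTT b hb
          rw [card_image_of_injective _ (fun a a' h => by simpa using h),
            card_sdiff_of_subset t1.1, hU, t2]
        have h2 := card_nsmul_le_sum N _ _ h1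
        rw [smul_eq_mul] at h2
        exact h2
      · intro b _ b' _ hne
        refine disjoint_left.2 ?_
        intro p hp hp'
        obtain ⟨a, -, rfl⟩ := mem_image.1 hp
        obtain ⟨a', -, h⟩ := mem_image.1 hp'
        simp only [Prod.mk.injEq] at h
        exact hne h.2.2.symm
    -- the numerical inequality
    have f3 : (k - 1) * r + 1 ≤ N.card := by
      have : (k - 1) * r + r = k * r := by
        rw [Nat.sub_mul, one_mul]
        have : r ≤ k * r := Nat.le_mul_of_pos_left _ (by omega)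
        omega
      omega
    have f4 : (k * r) * (k * r - 1) < 2 * (((k - 1) * r + 1) * (k * r - k)) := by
      obtain ⟨x, rfl⟩ : ∃ x, k = x + 2 := ⟨k - 2, by omega⟩
      obtain ⟨y, rfl⟩ : ∃ y, r = y + 3 := ⟨r - 3, by omega⟩
      have g1 : x + 2 - 1 = x + 1 := by omega
      have g2 : (x + 2) * (y + 3) - (x + 2) = (x + 2) * (y + 2) := by
        rw [show (x + 2) * (y + 3) = (x + 2) * (y + 2) + (x + 2) by ring]
        omega
      have g3 : (x + 2) * (y + 3) - 1 = x * y + 3 * x + 2 * y + 5 := by
        rw [show (x + 2) * (y + 3) = x * y + 3 * x + 2 * y + 5 + 1 by ring]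
        omega
      rw [g1, g2, g3]
      nlinarith [Nat.zero_le (x * y), Nat.zero_le (x * x * y), Nat.zero_le (x * y * y),
        Nat.zero_le (x * x * y * y), Nat.zero_le x, Nat.zero_le y, Nat.zero_le (y * y),
        Nat.zero_le (x * x)]
    have f5 : ((k - 1) * r + 1) * (k * r - k) ≤ N.card * (k * r - k) :=
      Nat.mul_le_mul_right _ f3
    omega
  have hlt : Om.card < 2 * AA.card := by
    rw [e1, e2, mul_sum]
    apply sum_lt_sum_of_nonempty _ hfib
    apply powersetCard_nonempty.2
    rw [card_univ, Fintype.card_fin]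
    omega
  omega

/-- The family of all half-size sets not containing the first point. -/
def offFam (n : ℕ) [NeZero n] : Finset (Finset (Fin n)) :=
  (powersetCard (n / 2) univ).filter (fun A => (0 : Fin n) ∉ A)

lemma offFam_max [NeZero n] (hn : Even n) : MaxInt (offFam n) := by
  classical
  obtain ⟨t, ht⟩ := hn
  have hn0 : n ≠ 0 := NeZero.ne n
  refine ⟨?_, ?_, ?_⟩
  · intro A hA
    exact mem_powersetCard_univ.1 (mem_filter.1 hA).1
  · intro A hA B hB hAB
    obtain ⟨hA1, hA2⟩ := mem_filter.1 hA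
    obtain ⟨hB1, hB2⟩ := mem_filter.1 hB
    rw [mem_powersetCard_univ] at hA1 hB1
    have hd : Disjoint A B := disjoint_iff_inter_eq_empty.2 hAB
    have hs : A ∪ B ⊆ (univ : Finset (Fin n)).erase 0 := by
      intro z hz
      rw [mem_erase]
      refine ⟨?_, mem_univ _⟩
      rintro rfl
      rcases mem_union.1 hz with h | h
      · exact hA2 h
      · exact hB2 h
    have := card_le_card hs
    rw [card_union_of_disjoint hd, card_erase_of_mem (mem_univ _), card_univ,
      Fintype.card_fin] at this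
    omega
  · intro S hS h
    rw [offFam, mem_filter, mem_powersetCard_univ]
    refine ⟨hS, fun h0 => ?_⟩
    have hc := card_compl_fin S
    refine h Sᶜ ?_ (inter_compl S)
    rw [offFam, mem_filter, mem_powersetCard_univ]
    exact ⟨by omega, by rw [mem_compl]; exact fun h' => h' h0⟩

/-- The upper bound. -/
lemma upper [NeZero n] (hn : Even n) {r k : ℕ} (hr : 3 ≤ r) {M : Finset (Finset (Fin n))}
    (hM : System r M) (hk : M.card = k) (hS : Shatters (offFam n) M) :
    k * (r - 1) ≤ n / 2 - 1 := by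
  classical
  obtain ⟨t, ht⟩ := hn
  have hn0 : n ≠ 0 := NeZero.ne n
  have hne : ∀ A ∈ M, A.Nonempty := fun A hA => card_pos.1 (by rw [hM.1 A hA]; omega)
  choose! c0 hc0 using fun (A : Finset (Fin n)) (hA : A ∈ M) => hne A hA
  have h0 : (0 : Fin n) ∉ M.biUnion id := by
    intro h
    obtain ⟨A, hA, h0A⟩ := mem_biUnion.1 h
    have h0A : (0 : Fin n) ∈ A := h0A
    obtain ⟨B, hB, hBU⟩ := hS (fun A' => if A' = A then 0 else c0 A') (by
      intro A' hA'
      by_cases h : A' = A
      · rw [if_pos h, h]; exact h0A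
      · rw [if_neg h]; exact hc0 A' hA')
    have : (0 : Fin n) ∈ B ∩ M.biUnion id := by
      rw [hBU]
      exact mem_image.2 ⟨A, hA, by simp⟩
    exact (mem_filter.1 hB).2 (mem_inter.1 this).1
  obtain ⟨B, hB, hBU⟩ := hS c0 hc0
  have hBc := mem_powersetCard_univ.1 (mem_filter.1 hB).1
  have h1 := card_choice hM hc0
  have h2 := card_union_system hM
  have h3 := card_inter_add_card_sdiff B (M.biUnion id)
  have h4 : (B \ M.biUnion id).card + (M.biUnion id).card + 1 ≤ n := by
    have hd : Disjoint (B \ M.biUnion id) (M.biUnion id) := sdiff_disjoint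
    rw [← card_union_of_disjoint hd]
    have hs : (B \ M.biUnion id) ∪ M.biUnion id ⊆ (univ : Finset (Fin n)).erase 0 := by
      intro z hz
      rw [mem_erase]
      refine ⟨?_, mem_univ _⟩
      rintro rfl
      rcases mem_union.1 hz with h | h
      · exact (mem_filter.1 hB).2 (mem_sdiff.1 h).1
      · exact h0 h
    have := card_le_card hs
    rw [card_erase_of_mem (mem_univ _), card_univ, Fintype.card_fin] at this
    omega
  rw [hBU, h1, hk, hBc] at h3
  rw [h2, hk] at h4
  have h5 : k * (r - 1) + k = k * r := by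
    obtain ⟨y, rfl⟩ : ∃ y, r = y + 1 := ⟨r - 1, by omega⟩
    rw [Nat.add_sub_cancel]; ring
  omega

end basics

/-- The defining set of `k_r(n)`. -/
def good (r n : ℕ) : Set ℕ := {k | ∀ F : Finset (Finset (Fin n)), MaxInt F →
    ∃ M : Finset (Finset (Fin n)), System r M ∧ M.card = k ∧ Shatters F M}

lemma good_upper {r n k : ℕ} (hn : Even n) (hn4 : 4 ≤ n) (hr : 3 ≤ r) (hk : k ∈ good r n) :
    k ≤ (n / 2 - 1) / (r - 1) := by
  have : NeZero n := ⟨by omega⟩
  obtain ⟨M, hM, hMc, hS⟩ := hk (offFam n) (offFam_max hn)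
  have := upper hn hr hM hMc hS
  rw [Nat.le_div_iff_mul_le (by omega)]
  exact this

lemma good_zero {r n : ℕ} (hn : Even n) (hr : 3 ≤ r) : 0 ∈ good r n := fun _ hF =>
  lower_one hn (by omega) (by omega) hF

/-- **Main theorem.** For all even `n ≥ 4` and all `r ≥ 3`, with `h = n/2`:
`⌊h/r⌋ ≤ k_r(n) ≤ ⌊(h-1)/(r-1)⌋ ≤ 2 ⌊h/r⌋`, so `k_r(n)` is determined up to a factor two (and is
`0` iff `r > h`); moreover `k_r(n) ≥ ⌊(h+1)/r⌋` when the latter is at least `2`, and the exact
value is `k_r(n) = ⌊(h-1)/(r-1)⌋` whenever `n ≤ 6 (r - 1)`. The number `k_r(n)` is a maximum. -/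
theorem result : ∀ n r : ℕ, Even n → 4 ≤ n → 3 ≤ r →
    (IsGreatest {k | ∀ F : Finset (Finset (Fin n)), MaxInt F →
      ∃ M : Finset (Finset (Fin n)), System r M ∧ M.card = k ∧ Shatters F M} (kr r n)) ∧
    (n / 2 / r ≤ kr r n ∧ kr r n ≤ (n / 2 - 1) / (r - 1) ∧
      (n / 2 - 1) / (r - 1) ≤ 2 * (n / 2 / r)) ∧
    (2 ≤ (n / 2 + 1) / r → (n / 2 + 1) / r ≤ kr r n) ∧
    (n ≤ 6 * (r - 1) → kr r n = (n / 2 - 1) / (r - 1)) := by
  intro n r hn hn4 hr
  have hbd : BddAbove (good r n) := ⟨_, fun k hk => good_upper hn hn4 hr hk⟩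
  have hgr : IsGreatest (good r n) (kr r n) :=
    ⟨Nat.sSup_mem ⟨0, good_zero hn hr⟩ hbd, fun x hx => le_csSup hbd hx⟩
  have hup : kr r n ≤ (n / 2 - 1) / (r - 1) := good_upper hn hn4 hr hgr.1
  have hlow1 : n / 2 / r ≤ kr r n := hgr.2 fun F hF =>
    lower_one hn (by omega) (Nat.div_mul_le_self _ _) hF
  have hlow2 : 2 ≤ (n / 2 + 1) / r → (n / 2 + 1) / r ≤ kr r n := by
    intro h2
    by_cases hdiv : (n / 2 + 1) / r * r = n / 2 + 1
    · exact hgr.2 fun F hF => lower_two hn hr h2 hdiv hF
    · have h3 : (n / 2 + 1) / r * r ≤ n / 2 := by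
        have := Nat.div_mul_le_self (n / 2 + 1) r
        omega
      exact hgr.2 fun F hF => lower_one hn (by omega) h3 hF
  refine ⟨hgr, ⟨hlow1, hup, ?_⟩, hlow2, ?_⟩
  · -- the elementary comparison of the two bounds
    obtain ⟨t, ht⟩ := hn
    have hh : n / 2 = t := by omega
    rw [hh]
    obtain ⟨y, rfl⟩ : ∃ y, r = y + 3 := ⟨r - 3, by omega⟩
    rw [show y + 3 - 1 = y + 2 by omega]
    set u := t / (y + 3) with hu
    have hlt : t < (y + 3) * (u + 1) := by
      rw [hu]; exact Nat.lt_mul_div_succ t (by omega)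
    have h1 : (t - 1) / (y + 2) < 2 * u + 1 := by
      rw [Nat.div_lt_iff_lt_mul (by omega)]
      rcases Nat.eq_zero_or_pos u with h0 | h0
      · rw [h0] at hlt ⊢; omega
      · have e1 : (y + 3) * (u + 1) = y * u + y + 3 * u + 3 := by ring
        have e2 : (2 * u + 1) * (y + 2) = 2 * (y * u) + 4 * u + y + 2 := by ring
        omega
    omega
  · intro h6
    apply le_antisymm hup
    obtain ⟨t, ht⟩ := hn
    have hh : n / 2 = t := by omega
    rw [hh] at hlow1 hlow2 ⊢
    obtain ⟨y, rfl⟩ : ∃ y, r = y + 3 := ⟨r - 3, by omega⟩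
    rw [show y + 3 - 1 = y + 2 by omega] at h6 ⊢
    have hq : (t - 1) / (y + 2) < 3 := by
      rw [Nat.div_lt_iff_lt_mul (by omega)]; omega
    rcases Nat.lt_or_ge ((t - 1) / (y + 2)) 1 with h0 | h0
    · omega
    rcases Nat.lt_or_ge ((t - 1) / (y + 2)) 2 with h1 | h1
    · have h2 : 1 * (y + 2) ≤ t - 1 := (Nat.le_div_iff_mul_le (by omega)).1 h0
      have h3 : 1 ≤ t / (y + 3) := (Nat.le_div_iff_mul_le (by omega)).2 (by omega)
      omega
    · have h2 : 2 * (y + 2) ≤ t - 1 := (Nat.le_div_iff_mul_le (by omega)).1 h1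
      have h3 : 2 ≤ (t + 1) / (y + 3) := (Nat.le_div_iff_mul_le (by omega)).2 (by omega)
      have := hlow2 h3
      omega

end Pool.Agent.Results.MP_5e3dfa_co.Magnitude
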